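import Pool.Agent.H378R2.Final

/-!
# The number of the primes in a class modulo the big modulus
-/

set_option autoImplicit false
set_option maxHeartbeats 4000000

open Finset Filter

namespace Pool.Agent.Y866.TR

open Pool.Agent.H378R2

theorem LPhi_nonneg1 (X : ℝ) : 0 ≤ LPhi X := by
  unfold LPhi
  apply Finset.sum_nonneg
  intro n _
  exact mul_nonneg (le_max_left _ _) ArithmeticFunction.vonMangoldt_nonneg

theorem ev_cls : ∀ᶠ X : ℝ in atTop, 1000 ≤ Real.log X ∧
    ∀ W : ℝ, 0 ≤ W → W ≤ Real.exp (Real.log X / 700) →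
      W * (20000 * Real.log X) * X ^ (1 / 2 : ℝ) ≤ X := by
  have h := isLittleO_pow_exp_pos_mul_atTop (k := 1) (show (0 : ℝ) < 1 / 20 by norm_num)
  have h1 : ∀ᶠ L : ℝ in atTop, 20000 * L ≤ Real.exp (1 / 20 * L) := by
    filter_upwards [h.def (show (0 : ℝ) < 1 / 20000 by norm_num), eventually_ge_atTop 1] with L hL hL1
    rw [pow_one, Real.norm_of_nonneg (by linarith), Real.norm_of_nonneg (Real.exp_pos _).le] at hL
    linarith
  filter_upwards [Real.tendsto_log_atTop.eventually h1, Real.tendsto_log_atTop.eventually_ge_atTop 1000,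
    eventually_gt_atTop 0] with X h2 h3 h4
  refine ⟨h3, fun W hW0 hW => ?_⟩
  have h5 : X ^ (1 / 2 : ℝ) = Real.exp (1 / 2 * Real.log X) := by
    rw [Real.rpow_def_of_pos h4]; congr 1; ring
  rw [h5]
  calc W * (20000 * Real.log X) * Real.exp (1 / 2 * Real.log X) ≤
      Real.exp (Real.log X / 700) * Real.exp (1 / 20 * Real.log X) * Real.exp (1 / 2 * Real.log X) := by
        gcongr
    _ = Real.exp (Real.log X / 700 + 1 / 20 * Real.log X + 1 / 2 * Real.log X) := by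
        rw [Real.exp_add, Real.exp_add]
    _ ≤ Real.exp (Real.log X) := Real.exp_le_exp.2 (by linarith)
    _ = X := Real.exp_log h4

/-- the primes of the class `b` modulo `W` in `(X, 3 X]` -/
noncomputable def cls (X : ℝ) (W b : ℕ) : Finset ℕ :=
  (Icc 1 ⌊3 * X⌋₊).filter (fun n => n ≡ b [MOD W] ∧ n.Prime ∧ ⌊X⌋₊ < n)

theorem class_count : ∀ᶠ X : ℝ in atTop, ∀ (W b : ℕ), 0 < W → (W : ℝ) ≤ Real.exp (Real.log X / 700) →
    |EPhi X W b| ≤ X / ((Nat.totient W : ℝ) * (Real.log X) ^ 2) →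
    1 / 500 * (X / (W.totient * Real.log X)) ≤ (cls X W b).card := by
  classical
  filter_upwards [ev_cls, LPhi_ge, eventually_ge_atTop 4] with X hg hLP hX4
  obtain ⟨hL, hgW⟩ := hg
  intro W b hW hWle hE
  have hX0 : 0 < X := by linarith
  obtain ⟨L, hLd⟩ : ∃ L : ℝ, L = Real.log X := ⟨_, rfl⟩
  rw [← hLd] at hL hE hgW ⊢
  have hL0 : 0 < L := by linarith
  have hWr : (0 : ℝ) < W := by exact_mod_cast hW
  have hφ : (0 : ℝ) < W.totient := by exact_mod_cast Nat.totient_pos.2 hW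
  have hφW : (W.totient : ℝ) ≤ W := by exact_mod_cast Nat.totient_le W
  have hlog3 : Real.log (3 * X) ≤ 2 * L := by
    rw [Real.log_mul (by norm_num) hX0.ne', ← hLd]
    have : Real.log 3 ≤ Real.log X := Real.log_le_log (by norm_num) (by linarith)
    linarith
  have hlog30 : 0 ≤ Real.log (3 * X) := Real.log_nonneg (by linarith)
  obtain ⟨I, hI⟩ : ∃ I : Finset ℕ, I = (Icc 1 ⌊3 * X⌋₊).filter (fun n => n ≡ b [MOD W]) := ⟨_, rfl⟩
  -- pointwise
  have hpt : ∀ n ∈ I, Phi (n / X) * ArithmeticFunction.vonMangoldt n ≤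
      (if n.Prime ∧ ⌊X⌋₊ < n then L else 0) +
        (if n.Prime then 0 else ArithmeticFunction.vonMangoldt n) := by
    intro n hn
    rw [hI, mem_filter, mem_Icc] at hn
    obtain ⟨⟨hn1, hn3⟩, hnr⟩ := hn
    have hn3' : (n : ℝ) ≤ 3 * X := (Nat.le_floor_iff (by linarith)).1 hn3
    have hn1' : (1 : ℝ) ≤ n := by exact_mod_cast hn1
    have hP0 : 0 ≤ Phi ((n : ℝ) / X) := le_max_left _ _
    have hP1 : Phi ((n : ℝ) / X) ≤ 1 / 2 := Phi_le_half _
    have hΛ0 : (0 : ℝ) ≤ ArithmeticFunction.vonMangoldt n := ArithmeticFunction.vonMangoldt_nonneg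
    have hΛ1 : (ArithmeticFunction.vonMangoldt n : ℝ) ≤ 2 * L :=
      (ArithmeticFunction.vonMangoldt_le_log).trans ((Real.log_le_log (by linarith) hn3').trans hlog3)
    by_cases hp : n.Prime
    · rw [if_pos hp, add_zero]
      by_cases hXn : ⌊X⌋₊ < n
      · rw [if_pos ⟨hp, hXn⟩]
        calc Phi (n / X) * ArithmeticFunction.vonMangoldt n ≤ 1 / 2 * (2 * L) := by gcongr
          _ = L := by ring
      · have h0 : Phi (n / X) = 0 := Phi_eq_zero_of_le (by positivity) (by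
          rw [div_le_one hX0]
          have h1 : n ≤ ⌊X⌋₊ := not_lt.1 hXn
          have h2 : (n : ℝ) ≤ (⌊X⌋₊ : ℕ) := by exact_mod_cast h1
          exact h2.trans (Nat.floor_le hX0.le))
        rw [h0, zero_mul, if_neg (fun h => hXn h.2)]
    · rw [if_neg hp, if_neg (fun h => hp h.1), zero_add]
      calc Phi (n / X) * ArithmeticFunction.vonMangoldt n ≤ 1 * ArithmeticFunction.vonMangoldt n := by
            gcongr
            linarith
        _ = _ := one_mul _
  have hsum := Finset.sum_le_sum hpt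
  rw [Finset.sum_add_distrib, ← Finset.sum_filter, Finset.sum_const, nsmul_eq_mul] at hsum
  have hcls : I.filter (fun n => n.Prime ∧ ⌊X⌋₊ < n) = cls X W b := by
    rw [hI]
    unfold cls
    rw [filter_filter]
  rw [hcls] at hsum
  -- prime powers
  have hpp : ∑ n ∈ I, (if n.Prime then 0 else ArithmeticFunction.vonMangoldt n) ≤ 8 * L * X ^ (1 / 2 : ℝ) := by
    have h3 : ∑ n ∈ I, (if n.Prime then (0 : ℝ) else ArithmeticFunction.vonMangoldt n) ≤
        ∑ n ∈ Ioc 0 ⌊3 * X⌋₊ with ¬ n.Prime, (ArithmeticFunction.vonMangoldt n : ℝ) := by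
      have e : ∑ n ∈ Ioc 0 ⌊3 * X⌋₊ with ¬ n.Prime, (ArithmeticFunction.vonMangoldt n : ℝ) =
          ∑ n ∈ Ioc 0 ⌊3 * X⌋₊, (if ¬ n.Prime then (ArithmeticFunction.vonMangoldt n : ℝ) else 0) :=
        Finset.sum_filter (s := Ioc 0 ⌊3 * X⌋₊) _ _
      rw [e]
      refine le_trans (Finset.sum_le_sum_of_subset_of_nonneg (t := Ioc 0 ⌊3 * X⌋₊) ?_ ?_) (le_of_eq ?_)
      · intro n hn
        rw [hI, mem_filter, mem_Icc] at hn
        rw [mem_Ioc]
        omega
      · intro n _ _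
        split_ifs
        · exact le_rfl
        · exact ArithmeticFunction.vonMangoldt_nonneg
      · apply Finset.sum_congr rfl
        intro n _
        by_cases hp : n.Prime <;> simp [hp]
    rw [← Chebyshev.psi_sub_theta_eq_sum_not_prime] at h3
    refine h3.trans ((Chebyshev.psi_sub_theta_le (by linarith)).trans ?_)
    have h4 : Real.sqrt (3 * X) ≤ 2 * X ^ (1 / 2 : ℝ) := by
      rw [← Real.sqrt_eq_rpow, Real.sqrt_mul (by norm_num)]
      apply mul_le_mul_of_nonneg_right _ (Real.sqrt_nonneg _)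
      rw [Real.sqrt_le_left (by norm_num)]
      norm_num
    calc 2 * Real.sqrt (3 * X) * Real.log (3 * X) ≤ 2 * (2 * X ^ (1 / 2 : ℝ)) * (2 * L) := by gcongr
      _ = _ := by ring
  -- the main term
  have h1 := (abs_le.1 hE).1
  rw [EPhi_eq, ← hI] at h1
  obtain ⟨P, hP⟩ : ∃ P : ℝ, P = X / W.totient := ⟨_, rfl⟩
  have hP0 : 0 < P := by rw [hP]; positivity
  have h2 : X / ((W.totient : ℝ) * L ^ 2) ≤ P / 1000 := by
    rw [← div_div, ← hP]
    apply div_le_div_of_nonneg_left hP0.le (by norm_num)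
    nlinarith
  have h3 : P / 200 ≤ LPhi X * (1 / (W.totient : ℝ)) := by
    rw [hP]
    calc X / (W.totient : ℝ) / 200 = (X / 200) * (1 / (W.totient : ℝ)) := by ring
      _ ≤ LPhi X * (1 / (W.totient : ℝ)) := by gcongr
  have h4 : 8 * L * X ^ (1 / 2 : ℝ) ≤ P / 1000 := by
    rw [hP, div_div, le_div_iff₀ (by positivity)]
    have h5 := hgW W hWr.le (by rw [hLd]; exact hWle)
    calc 8 * L * X ^ (1 / 2 : ℝ) * (W.totient * 1000) ≤ 8 * L * X ^ (1 / 2 : ℝ) * (W * 1000) := by gcongr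
      _ ≤ W * (20000 * L) * X ^ (1 / 2 : ℝ) := by
          have : 0 ≤ W * L * X ^ (1 / 2 : ℝ) := by positivity
          nlinarith
      _ ≤ X := h5
  have h5 : P / 500 ≤ (cls X W b).card * L := by linarith
  have h6 : 1 / 500 * (X / (W.totient * L)) = P / 500 / L := by rw [hP]; field_simp
  rw [h6, div_le_iff₀ hL0]
  exact h5

/-- the class sums for the big modulus -/
theorem bv_one (Z : ℕ) : ∀ᶠ X : ℝ in atTop, ∃ (ps : ℕ) (S : Finset ℕ), GoodP Z ps ∧ GoodS X S ∧
    ∀ b : ℕ, b.Coprime (WW X S ps) →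
      |EPhi X (WW X S ps) b| ≤ X / ((Nat.totient (WW X S ps) : ℝ) * (Real.log X) ^ 2) := by
  obtain ⟨X0, h⟩ := bvrel_holds 2 Z
  filter_upwards [eventually_ge_atTop X0, eventually_ge_atTop 1] with X hX hX1
  obtain ⟨ps, S, hps, hS, h1⟩ := h X hX
  refine ⟨ps, S, hps, hS, fun b hb => ?_⟩
  have hex : ∀ q : ℕ, ∃ c : ℕ, 1 ≤ q → c.Coprime (WW X S ps * q) ∧ (q = 1 → c = b) := by
    intro q
    by_cases hq : q = 1
    · exact ⟨b, fun _ => ⟨by rw [hq, mul_one]; exact hb, fun _ => rfl⟩⟩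
    · exact ⟨1, fun _ => ⟨Nat.coprime_one_left _, fun h => absurd h hq⟩⟩
  choose c hc using hex
  have h2 := h1 c (fun q hq => (hc q hq).1)
  have h3 : (1 : ℕ) ∈ (Icc 1 ⌊X ^ (1 / 100 : ℝ)⌋₊).filter
      (fun q => Squarefree q ∧ q.Coprime (WW X S ps * ps)) := by
    rw [mem_filter, mem_Icc]
    refine ⟨⟨le_rfl, ?_⟩, squarefree_one, Nat.coprime_one_left _⟩
    apply Nat.le_floor
    rw [Nat.cast_one]
    exact Real.one_le_rpow hX1 (by norm_num)
  refine le_trans ?_ h2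
  refine le_trans (le_of_eq ?_) (single_le_sum (f := fun q : ℕ =>
    (q.divisors.card : ℝ) ^ 2 * |EPhi X (WW X S ps * q) (c q)|) (fun q _ => by positivity) h3)
  rw [(hc 1 le_rfl).2 rfl]
  simp

end Pool.Agent.Y866.TR
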