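import Pool.Agent.H312R2.RG.Defs
import Pool.Agent.H398R2.RK.Rec3

/-!
# The covering at Rankin's scale with few survivors

The covering of helper398 and helper312 (starting files, `Pool.Agent.H312R2.RG.covR`) with a shorter window.
-/

set_option autoImplicit false
set_option maxHeartbeats 4000000

open Finset Filter

namespace Pool.Agent.Y866.TR

open Pool.Agent.H378R2

/-- Rankin's function `log x log₂ x log₄ x / (log₃ x)²` -/
noncomputable def RK (X : ℝ) : ℝ :=
  Real.log X * Real.log (Real.log X) * Real.log (Real.log (Real.log (Real.log X))) /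
    Real.log (Real.log (Real.log X)) ^ 2

/-- the eventual inequalities, in terms of `A = log log X` -/
theorem cov_ev (c : ℝ) (hc : 0 < c) : ∃ A₀ : ℝ, ∀ A : ℝ, A₀ ≤ A → 1 ≤ A ∧ 1 ≤ Real.log A ∧
    2 * Real.log 2 ≤ Real.log A ∧ 1 ≤ Real.log (Real.log A) ∧
    2 * Real.log 2 ≤ Real.log (Real.log A) ∧ Real.log (Real.log A) ≤ Real.log A ∧
    2 * Real.log 2000 ≤ A ∧ (Real.log A) ^ 2 ≤ c * A ∧ 2000 ≤ Real.exp A := by
  have hlog := Real.tendsto_log_atTop
  have hll : Tendsto (fun A : ℝ => Real.log (Real.log A)) atTop atTop := hlog.comp hlog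
  have h1 := Pool.Agent.H398R2.RK.ev_log_le (Real.sqrt c) (Real.sqrt_pos.2 hc)
  have h := ((((((eventually_ge_atTop (1 : ℝ)).and (hlog.eventually_ge_atTop 1)).and
    (hlog.eventually_ge_atTop (2 * Real.log 2))).and (hll.eventually_ge_atTop 1)).and
    (hll.eventually_ge_atTop (2 * Real.log 2))).and (eventually_ge_atTop (2 * Real.log 2000))).and
    (h1.and (eventually_ge_atTop (2000 : ℝ)))
  obtain ⟨A₀, hA⟩ := eventually_atTop.1 h
  refine ⟨A₀, fun A h0 => ?_⟩
  obtain ⟨⟨⟨⟨⟨⟨a1, a2⟩, a3⟩, a4⟩, a5⟩, a6⟩, a7, a8⟩ := hA A h0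
  refine ⟨a1, a2, a3, a4, a5, ?_, a6, ?_, ?_⟩
  · have := Real.log_le_sub_one_of_pos (show 0 < Real.log A by linarith)
    linarith
  · have h2 : (Real.log A) ^ 2 ≤ (Real.sqrt c * Real.sqrt A) ^ 2 := by
      apply pow_le_pow_left₀ (by linarith) a7
    rw [mul_pow, Real.sq_sqrt hc.le, Real.sq_sqrt (by linarith)] at h2
    exact h2
  · have := Real.add_one_le_exp A
    linarith

/-- the covering, one prime `t` of the window survives, and few other integers -/
theorem covT : ∀ c₃ : ℝ, 0 < c₃ → ∃ c₂ : ℝ, 0 < c₂ ∧ ∃ X0 : ℝ, ∀ X : ℝ, X0 ≤ X →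
    (yy X : ℝ) * 8 ≤ c₂ * RK X ∧ c₂ * RK X ≤ Real.log X ^ 2 ∧
    ∀ (ps : ℕ) (S : Finset ℕ), GoodP 2 ps → GoodS X S → ∀ t : ℕ,
    t.Prime → yy X < t → (t : ℝ) ≤ c₂ * RK X →
    ∃ a0 : ℕ, (a0 + t).Coprime (WW X S ps) ∧
      (((range (⌊c₂ * RK X⌋₊ + 1)).filter
        (fun s => s ≠ t ∧ (a0 + s).Coprime (WW X S ps))).card : ℝ) ≤
          c₃ * (Real.log X / Real.log (Real.log X)) := by
  classical
  intro c₃ hc₃
  obtain ⟨C, hC, y₀, hrs⟩ := Pool.Agent.H398R2.RK.rsurv 1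
  -- constants
  set c₂ : ℝ := min (1 / 8000) (c₃ / (8 * C)) with hc₂
  have hc₂0 : 0 < c₂ := lt_min (by norm_num) (by positivity)
  have hc₂1 : c₂ ≤ 1 / 8000 := min_le_left _ _
  have hc₂2 : c₂ ≤ c₃ / (8 * C) := min_le_right _ _
  obtain ⟨A₀, hev⟩ := cov_ev (c₂) hc₂0
  refine ⟨c₂, hc₂0, Real.exp (Real.exp (max A₀ (Real.log (2000 * ((y₀ : ℝ) + 2))))), ?_⟩
  intro X hX
  have hX0 : 0 < X := (Real.exp_pos _).trans_le hX
  set T := Real.log X with hT
  have hT' : Real.exp (max A₀ (Real.log (2000 * ((y₀ : ℝ) + 2)))) ≤ T := by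
    rw [hT, ← Real.log_exp (Real.exp _)]; exact Real.log_le_log (Real.exp_pos _) hX
  have hT0 : 0 < T := (Real.exp_pos _).trans_le hT'
  set A := Real.log T with hA
  have hA' : max A₀ (Real.log (2000 * ((y₀ : ℝ) + 2))) ≤ A := by
    rw [hA, ← Real.log_exp (max _ _)]; exact Real.log_le_log (Real.exp_pos _) hT'
  obtain ⟨a1, a2, a3, a4, a5, a6, a7, a8, a9⟩ := hev A ((le_max_left _ _).trans hA')
  have hTe : T = Real.exp A := by rw [hA, Real.exp_log hT0]
  set B := Real.log A with hB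
  set D := Real.log B with hD
  have hff : RK X = T * A * D / B ^ 2 := by
    unfold RK
    rfl
  have hA0 : 0 < A := by linarith
  have hB0 : 0 < B := by linarith
  have hD0 : 0 < D := by linarith
  -- y
  set y := yy X with hy
  have hyT : (y : ℝ) ≤ T / 1000 := Nat.floor_le (by positivity)
  have hyT2 : T / 2000 ≤ y := by
    have h1 : T / 1000 < (y : ℝ) + 1 := Nat.lt_floor_add_one _
    have h2 : 1 ≤ T / 2000 := by
      rw [le_div_iff₀ (by norm_num), hTe]; linarith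
    linarith [show T / 1000 = T / 2000 + T / 2000 by ring]
  have hy0T : (y₀ : ℝ) + 2 ≤ T / 2000 := by
    have h1 := (le_max_right A₀ (Real.log (2000 * ((y₀ : ℝ) + 2)))).trans hA'
    have h2 : 2000 * ((y₀ : ℝ) + 2) ≤ T := by
      rw [hTe, ← Real.log_le_iff_le_exp (by positivity)]
      exact h1
    linarith
  have hyy0 : y₀ ≤ y := by
    have : (y₀ : ℝ) ≤ y := by linarith
    exact_mod_cast this
  have hy0 : (0 : ℝ) < y := by
    have : (0 : ℝ) ≤ y₀ := Nat.cast_nonneg _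
    linarith
  have hly1 : Real.log y ≤ A := by
    rw [hA]; apply Real.log_le_log hy0; linarith
  have hly2 : A / 2 ≤ Real.log y := by
    have h1 : Real.log (T / 2000) ≤ Real.log y := Real.log_le_log (by positivity) hyT2
    rw [Real.log_div hT0.ne' (by norm_num)] at h1
    linarith
  have hly0 : 0 < Real.log y := by linarith
  have hl2y1 : Real.log (Real.log y) ≤ B := Real.log_le_log hly0 hly1
  have hl2y2 : B / 2 ≤ Real.log (Real.log y) := by
    have h1 : Real.log (A / 2) ≤ Real.log (Real.log y) := Real.log_le_log (by positivity) hly2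
    rw [Real.log_div hA0.ne' (by norm_num)] at h1
    linarith
  have hl2y0 : 0 < Real.log (Real.log y) := by linarith
  have hl3y2 : D / 2 ≤ Real.log (Real.log (Real.log y)) := by
    have h1 : Real.log (B / 2) ≤ Real.log (Real.log (Real.log y)) := Real.log_le_log (by positivity) hl2y2
    rw [Real.log_div hB0.ne' (by norm_num)] at h1
    linarith
  -- H
  set H : ℕ := ⌊c₂ * RK X⌋₊ with hH
  have hff0 : 0 ≤ c₂ * RK X := by rw [hff]; positivity
  have hHle : (H : ℝ) ≤ c₂ * RK X := Nat.floor_le hff0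
  have hT1 : T ≤ c₂ * RK X := by
    rw [hff, mul_div_assoc', le_div_iff₀ (by positivity)]
    have h1 : T * B ^ 2 ≤ T * (c₂ * A) := by gcongr
    have h2 : T * (c₂ * A) ≤ T * (c₂ * A) * D := by
      have : 0 ≤ T * (c₂ * A) := by positivity
      nlinarith
    linarith [show c₂ * (T * A * D) = T * (c₂ * A) * D by ring]
  have hyH : y ≤ H := by
    rw [hH]
    apply Nat.le_floor
    have : (y : ℝ) ≤ T := by linarith
    linarith
  have hHy : (H : ℝ) ≤ y * (Real.log y) ^ 2 := by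
    refine hHle.trans ?_
    have h1 : T / 2000 * (A / 2) ^ 2 ≤ y * (Real.log y) ^ 2 := by gcongr
    refine le_trans ?_ h1
    rw [hff, mul_div_assoc', div_le_iff₀ (by positivity)]
    have h2 : D ≤ B ^ 2 := by nlinarith
    have h4 : A ≤ A ^ 2 := by nlinarith
    have h3 : c₂ * (T * A * D) ≤ 1 / 8000 * (T * A ^ 2 * B ^ 2) := by gcongr
    linarith [show T / 2000 * (A / 2) ^ 2 * B ^ 2 = 1 / 8000 * (T * A ^ 2 * B ^ 2) by ring]
  -- the size of the window
  have hR2 : c₂ * RK X ≤ T ^ 2 := by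
    rw [hff, mul_div_assoc', div_le_iff₀ (by positivity)]
    have h2 : D ≤ B ^ 2 := by nlinarith
    have h4 : A ≤ T := by
      have := Real.log_le_sub_one_of_pos hT0
      linarith
    calc c₂ * (T * A * D) ≤ 1 * (T * T * B ^ 2) := by
          have : c₂ ≤ 1 := by linarith
          gcongr
      _ = T ^ 2 * B ^ 2 := by ring
  refine ⟨by linarith, hR2, ?_⟩
  intro ps S hps hS t₀ ht1 ht2 ht3
  obtain ⟨t, htd⟩ : ∃ t : Fin 1 → ℕ, t = fun _ => t₀ := ⟨_, rfl⟩
  have ht : ∀ j, (t j).Prime ∧ yy X < t j ∧ (t j : ℝ) ≤ c₂ * RK X := by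
    intro j
    rw [htd]
    exact ⟨ht1, ht2, ht3⟩
  -- S
  have hz2 : 2 ≤ z2 X := by
    have h1 : Real.log (Real.log X) ^ 3 ≤ (z2 X : ℝ) := Nat.le_ceil _
    have h2 : (2 : ℝ) ≤ Real.log (Real.log X) ^ 3 := by
      have h3 : (2 : ℝ) ≤ A := by
        have := Real.log_two_gt_d9
        have h4 : Real.log 2 ≤ Real.log 2000 := Real.log_le_log (by norm_num) (by norm_num)
        have h5 : (1 : ℝ) ≤ Real.log 2000 := by
          rw [Real.le_log_iff_exp_le (by norm_num)]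
          have := Real.exp_one_lt_d9
          linarith
        linarith
      have h4 : Real.log (Real.log X) = A := rfl
      rw [h4]
      nlinarith [sq_nonneg A]
    have : (2 : ℝ) ≤ (z2 X : ℝ) := h2.trans h1
    exact_mod_cast this
  have hS' : ∀ q ∈ S, q.Prime ∧ 2 < q := fun q hq => ⟨(hS.1 q hq).1, by have := (hS.1 q hq).2.1; omega⟩
  have hSsum : ∑ q ∈ S, (1 : ℝ) / q ≤ 12 / (Real.log y) ^ 2 := by
    refine hS.2.trans ?_
    have h4 : Real.log (Real.log X) = A := rfl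
    rw [h4]
    have h5 : (Real.log y) ^ 2 ≤ A ^ 2 := by gcongr
    rw [div_le_div_iff₀ (by positivity) (by positivity)]
    nlinarith [sq_nonneg A]
  have ht' : ∀ j, (t j).Prime ∧ y < t j ∧ t j ≤ H := fun j =>
    ⟨(ht j).1, (ht j).2.1, by rw [hH]; exact Nat.le_floor (ht j).2.2⟩
  obtain ⟨b, hb1, hb2⟩ := hrs y hyy0 S ps hS' hSsum hps H hyH hHy t ht'
  -- membership in PW
  have hPW : ∀ p, p ∈ PW X S ps ↔ (p.Prime ∧ p ≤ y ∧ p ∉ S ∧ p ≠ ps) := by
    intro p
    unfold PW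
    rw [mem_filter, mem_Icc]
    constructor
    · rintro ⟨⟨_, h1⟩, h2, h3, h4⟩; exact ⟨h2, h1, h3, h4⟩
    · rintro ⟨h2, h1, h3, h4⟩; exact ⟨⟨h2.pos, h1⟩, h2, h3, h4⟩
  -- CRT
  obtain ⟨a0, ha0⟩ := Nat.chineseRemainderOfFinset (fun p => p - b p) (fun p => p) (PW X S ps)
    (fun p hp => ((hPW p).1 hp).1.ne_zero)
    (fun p hp q hq hpq => (Nat.coprime_primes ((hPW p).1 (by simpa using hp)).1
      ((hPW q).1 (by simpa using hq)).1).2 hpq)
  have hkey : ∀ p ∈ PW X S ps, ∀ s : ℕ, p ∣ a0 + s ↔ s ≡ b p [MOD p] := by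
    intro p hp s
    obtain ⟨hpp, hpy, hpS, hpps⟩ := (hPW p).1 hp
    have hbp := (hb1 p hpp hpy hpS hpps).1
    have h1 := ha0 p hp
    have h2 : a0 + b p ≡ 0 [MOD p] := by
      have h3 := h1.add_right (b p)
      have h4 : p - b p + b p = p := by omega
      rw [h4] at h3
      exact h3.trans (by rw [Nat.modEq_zero_iff_dvd])
    constructor
    · intro hd
      have h3 : a0 + s ≡ a0 + b p [MOD p] := ((Nat.modEq_zero_iff_dvd).2 hd).trans h2.symm
      exact Nat.ModEq.add_left_cancel' a0 h3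
    · intro hs
      have h3 : a0 + s ≡ a0 + b p [MOD p] := Nat.ModEq.add_left a0 hs
      exact (Nat.modEq_zero_iff_dvd).1 (h3.trans h2)
  have hcop : ∀ s : ℕ, (a0 + s).Coprime (WW X S ps) ↔ ∀ p ∈ PW X S ps, ¬ s ≡ b p [MOD p] := by
    intro s
    unfold WW
    rw [Nat.coprime_prod_right_iff]
    constructor
    · intro h p hp hs
      have h1 := h p hp
      rw [Nat.coprime_comm, Nat.Prime.coprime_iff_not_dvd ((hPW p).1 hp).1] at h1
      exact h1 ((hkey p hp s).2 hs)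
    · intro h p hp
      rw [Nat.coprime_comm, Nat.Prime.coprime_iff_not_dvd ((hPW p).1 hp).1]
      intro hd
      exact h p hp ((hkey p hp s).1 hd)
  refine ⟨a0, ?_, ?_⟩
  · rw [hcop]
    intro p hp
    obtain ⟨hpp, hpy, hpS, hpps⟩ := (hPW p).1 hp
    have h1 := (hb1 p hpp hpy hpS hpps).2 0
    rw [htd] at h1
    exact h1
  · have hset : (range (⌊c₂ * RK X⌋₊ + 1)).filter
        (fun s => s ≠ t₀ ∧ (a0 + s).Coprime (WW X S ps)) ⊆
        (range (H + 1)).filter (fun k => (∀ j, k ≠ t j) ∧ ∀ p : ℕ, p.Prime → p ≤ y → p ∉ S → p ≠ ps →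
          ¬ k ≡ b p [MOD p]) := by
      intro s hs
      rw [mem_filter] at hs ⊢
      refine ⟨hs.1, fun j => by rw [htd]; exact hs.2.1, fun p hpp hpy hpS hpps => ?_⟩
      exact (hcop s).1 hs.2.2 p ((hPW p).2 ⟨hpp, hpy, hpS, hpps⟩)
    have h1 : (((range (⌊c₂ * RK X⌋₊ + 1)).filter
        (fun s => s ≠ t₀ ∧ (a0 + s).Coprime (WW X S ps))).card : ℝ) ≤
        C * H * (Real.log (Real.log y)) ^ 2 /
        ((Real.log y) ^ 2 * Real.log (Real.log (Real.log y))) := by
      refine le_trans ?_ hb2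
      apply Nat.cast_le.2
      convert card_le_card hset
    refine h1.trans ?_
    calc C * H * (Real.log (Real.log y)) ^ 2 /
        ((Real.log y) ^ 2 * Real.log (Real.log (Real.log y)))
        ≤ C * (c₂ * RK X) * B ^ 2 / ((A / 2) ^ 2 * (D / 2)) := by gcongr
      _ = 8 * C * c₂ * (T / A) := by
          rw [hff]
          field_simp
          ring
      _ ≤ 8 * C * (c₃ / (8 * C)) * (T / A) := by gcongr
      _ = c₃ * (T / A) := by field_simp

end Pool.Agent.Y866.TR
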