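import Pool.Agent.Y866.TR.Pair

/-!
# Pairs of primes in a class modulo the big modulus: the upper bound
-/

set_option autoImplicit false
set_option maxHeartbeats 4000000

open Finset Filter

namespace Pool.Agent.Y866.TR

open Pool.Agent.H378R2
open Pool.Agent.TH423.SH (PS PIj fli fll prb)

theorem PIj_two_le (W R : ℕ) (h : ∀ p ∈ PS W R, 3 ≤ p) : PIj W R 2 ≤ PIj W R 1 ^ 2 ∧ 0 ≤ PIj W R 1 := by
  unfold PIj
  constructor
  · rw [← prod_pow]
    apply Finset.prod_le_prod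
    · intro p hp
      have h1 : (3 : ℝ) ≤ p := by exact_mod_cast h p hp
      rw [sub_nonneg, div_le_one (by linarith)]
      push_cast
      linarith
    · intro p hp
      have h1 : (3 : ℝ) ≤ p := by exact_mod_cast h p hp
      push_cast
      have h2 : (0 : ℝ) ≤ (1 / (p : ℝ)) ^ 2 := by positivity
      have h3 : (2 : ℝ) / p = 2 * (1 / p) := by ring
      rw [h3]
      nlinarith
  · apply prod_nonneg
    intro p hp
    have h1 : (3 : ℝ) ≤ p := by exact_mod_cast h p hp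
    rw [sub_nonneg, div_le_one (by linarith)]
    push_cast
    linarith

/-- the growth conditions -/
theorem ev_pair (E Z : ℕ) (hE : 1 ≤ E) : ∀ᶠ X : ℝ in atTop,
    1000 ≤ Real.log X ∧ (Z : ℝ) ≤ Real.log X / 2000 ∧ (Z : ℝ) ≤ Real.log (Real.log X) ∧
    8 ≤ Real.log (Real.log X) ∧
    8 ≤ X ^ (1 / (2 * E) : ℝ) ∧ 8 * Real.log 2 ≤ Real.log X / (2 * E) ∧
    X ^ (1 / (2 * E) : ℝ) + Real.log X ^ 2 + 2 ≤ X ∧
    2000 * (Real.log (Real.log X) ^ 3 + 1) ≤ Real.log X ∧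
    ∀ W : ℝ, 0 < W → W ≤ Real.exp (Real.log X / 700) → W * Real.log X ^ 2 * X ^ (1 / 2 : ℝ) ≤ X := by
  have hE0 : (0 : ℝ) < E := by exact_mod_cast hE
  have hE1 : (1 : ℝ) ≤ E := by exact_mod_cast hE
  have h := isLittleO_pow_exp_pos_mul_atTop (k := 2) (show (0 : ℝ) < 1 / 20 by norm_num)
  have h1 : ∀ᶠ L : ℝ in atTop, 4 * L ^ 2 ≤ Real.exp (1 / 20 * L) := by
    filter_upwards [h.def (show (0 : ℝ) < 1 / 4 by norm_num), eventually_ge_atTop 1] with L hL hL1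
    rw [Real.norm_of_nonneg (by positivity), Real.norm_of_nonneg (Real.exp_pos _).le] at hL
    linarith
  have h2 : ∀ᶠ L : ℝ in atTop, 2000 * (Real.log L ^ 3 + 1) ≤ L := by
    filter_upwards [(Real.isLittleO_pow_log_id_atTop (n := 3)).bound
      (show (0 : ℝ) < 1 / 4000 by norm_num), eventually_ge_atTop 4000] with L hL hL1
    rw [Real.norm_of_nonneg (pow_nonneg (Real.log_nonneg (by linarith)) _), id,
      Real.norm_of_nonneg (by linarith)] at hL
    linarith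
  have hlog := Real.tendsto_log_atTop
  have hrp : Tendsto (fun X : ℝ => X ^ (1 / (2 * E) : ℝ)) atTop atTop :=
    tendsto_rpow_atTop (by positivity)
  filter_upwards [hlog.eventually h1, hlog.eventually_ge_atTop 1000,
    hlog.eventually_ge_atTop (2000 * Z), (hlog.comp hlog).eventually_ge_atTop (max (Z : ℝ) 8),
    hrp.eventually_ge_atTop 8, hlog.eventually_ge_atTop (2 * E * (8 * Real.log 2)),
    eventually_ge_atTop 16, hlog.eventually h2] with X g1 g2 g3 g4 g5 g6 g7 g8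
  have hX0 : 0 < X := by linarith
  have hhalf : X ^ (1 / 2 : ℝ) = Real.exp (1 / 2 * Real.log X) := by
    rw [Real.rpow_def_of_pos hX0]; congr 1; ring
  simp only [Function.comp] at g4
  refine ⟨g2, by linarith, (le_max_left _ _).trans g4, (le_max_right _ _).trans g4, g5, ?_, ?_, g8, ?_⟩
  · rw [le_div_iff₀ (by positivity)]
    linarith
  · have h2 : X ^ (1 / (2 * E) : ℝ) ≤ X ^ (1 / 2 : ℝ) := by
      apply Real.rpow_le_rpow_of_exponent_le (by linarith)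
      apply one_div_le_one_div_of_le (by norm_num)
      linarith
    have h3 : X ^ (1 / 2 : ℝ) * X ^ (1 / 2 : ℝ) = X := by
      rw [← Real.rpow_add hX0]; norm_num
    have h4 : (4 : ℝ) ≤ X ^ (1 / 2 : ℝ) := by
      rw [← Real.sqrt_eq_rpow]
      apply Real.le_sqrt_of_sq_le
      linarith
    have h5 : 4 * Real.log X ^ 2 ≤ X := by
      calc 4 * Real.log X ^ 2 ≤ Real.exp (1 / 20 * Real.log X) := g1
        _ ≤ Real.exp (Real.log X) := Real.exp_le_exp.2 (by linarith)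
        _ = X := Real.exp_log hX0
    nlinarith
  · intro W hW0 hW
    rw [hhalf]
    have h5 : Real.log X ^ 2 ≤ Real.exp (1 / 20 * Real.log X) := by
      have : 0 ≤ Real.log X ^ 2 := sq_nonneg _
      linarith
    calc W * Real.log X ^ 2 * Real.exp (1 / 2 * Real.log X) ≤
        Real.exp (Real.log X / 700) * Real.exp (1 / 20 * Real.log X) * Real.exp (1 / 2 * Real.log X) := by
          gcongr
      _ = Real.exp (Real.log X / 700 + 1 / 20 * Real.log X + 1 / 2 * Real.log X) := by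
          rw [Real.exp_add, Real.exp_add]
      _ ≤ Real.exp (Real.log X) := Real.exp_le_exp.2 (by linarith)
      _ = X := Real.exp_log hX0

/-- small primes divide the big modulus -/
theorem small_dvd {X : ℝ} {S : Finset ℕ} {ps Z : ℕ} (hps : GoodP Z ps) (hS : GoodS X S)
    (h1 : (Z : ℝ) ≤ Real.log X / 2000) (h3 : 1 ≤ Real.log (Real.log X))
    (h2 : (Z : ℝ) ≤ Real.log (Real.log X)) (p : ℕ) (hp : p.Prime) (hpZ : p ≤ Z) : p ∣ WW X S ps := by
  unfold WW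
  apply dvd_prod_of_mem
  unfold PW
  rw [mem_filter, mem_Icc]
  have hpZr : (p : ℝ) ≤ Z := by exact_mod_cast hpZ
  refine ⟨⟨hp.pos, ?_⟩, hp, ?_, ?_⟩
  · unfold yy
    apply Nat.le_floor
    have : (0 : ℝ) ≤ Z := Nat.cast_nonneg Z
    linarith
  · intro hpS
    have h4 := (hS.1 p hpS).2.1
    have h5 : Real.log (Real.log X) ^ 3 ≤ (z2 X : ℝ) := Nat.le_ceil _
    have h6 : Real.log (Real.log X) ≤ Real.log (Real.log X) ^ 3 := by
      have : Real.log (Real.log X) ^ 3 = Real.log (Real.log X) * Real.log (Real.log X) ^ 2 := by ring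
      rw [this]
      nlinarith [one_le_pow₀ (n := 2) h3]
    have h7 : (z2 X : ℝ) < p := by exact_mod_cast h4
    linarith
  · rcases hps with h4 | h4
    · rw [h4]; exact hp.one_lt.ne'
    · omega

theorem pair_bound : ∃ C₁ : ℝ, 0 < C₁ ∧ ∃ Z : ℕ, 2 ≤ Z ∧ ∀ᶠ X : ℝ in atTop,
    ∀ (ps : ℕ) (S : Finset ℕ), GoodP Z ps → GoodS X S → ∀ (b : ℕ) (m : ℤ), m ≠ 0 →
    (m.natAbs : ℝ) ≤ Real.log X ^ 2 →
    (((Ioc ⌊X⌋₊ ⌊3 * X⌋₊).filter (fun n => n ≡ b [MOD WW X S ps] ∧ n.Prime ∧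
      ((n : ℤ) + m).natAbs.Prime)).card : ℝ) ≤
      C₁ * (X * (WW X S ps) / ((WW X S ps).totient ^ 2 * Real.log X ^ 2)) := by
  classical
  obtain ⟨C, hC, H⟩ := fli fll
  obtain ⟨b₀, hb₀⟩ : ∃ b₀ : ℕ, b₀ = C * 3 := ⟨_, rfl⟩
  obtain ⟨E, hE⟩ : ∃ E : ℕ, E = C * b₀ := ⟨_, rfl⟩
  have hE1 : 1 ≤ E := by rw [hE, hb₀]; nlinarith
  have hEr : (1 : ℝ) ≤ E := by exact_mod_cast hE1
  have hE0 : (0 : ℝ) < E := by linarith
  refine ⟨96 * (8 * E) ^ 2 + 1, by positivity, C * 3 + 3, by omega, ?_⟩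
  filter_upwards [ev_pair E (C * 3 + 3) hE1, eventually_ge_atTop 1] with X hev hX1 ps S hps hS b m hm hmX
  obtain ⟨g1, g2, g3, g4, g5, g6, g7, g9, g8⟩ := hev
  have hX0 : 0 < X := by linarith
  obtain ⟨W, hW⟩ : ∃ W : ℕ, W = WW X S ps := ⟨_, rfl⟩
  have hsmall := small_dvd hps hS g2 (by linarith) g3
  have hWle := WW_le X hX1 S ps
  have hWpos : 0 < W := by rw [hW]; exact WW_pos X S ps
  rw [← hW] at hsmall hWle ⊢
  obtain ⟨T, hT⟩ : ∃ T : ℝ, T = Real.log X := ⟨_, rfl⟩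
  have hWr : (0 : ℝ) < W := by exact_mod_cast hWpos
  have hφ : (0 : ℝ) < W.totient := by exact_mod_cast Nat.totient_pos.2 hWpos
  have hφW : (W.totient : ℝ) ≤ W := by exact_mod_cast Nat.totient_le W
  obtain ⟨m', hm'⟩ : ∃ m' : ℕ, m' = m.natAbs := ⟨_, rfl⟩
  rw [← hm'] at hmX
  have hm'1 : 1 ≤ m' := by rw [hm']; exact Int.natAbs_pos.2 hm
  have hm'r : (1 : ℝ) ≤ m' := by exact_mod_cast hm'1
  have hT0 : 0 < T := by rw [hT]; linarith
  -- the totient of `W m'`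
  have htot : (W.totient : ℝ) * m' ≤ 4 * ((W * m').totient : ℝ) := by
    apply tot_mul_ge (z := z2 X) (ps := ps) hWpos hm'1
    · intro p hp _ hpW
      by_contra hcon
      push Not at hcon
      apply hpW
      rw [hW]
      unfold WW
      apply dvd_prod_of_mem
      unfold PW
      rw [mem_filter, mem_Icc]
      refine ⟨⟨hp.pos, ?_⟩, hp, ?_, hcon.2⟩
      · unfold yy
        apply Nat.le_floor
        have h1 : (p : ℝ) ≤ (z2 X : ℕ) := by exact_mod_cast hcon.1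
        have h2 : (z2 X : ℝ) < Real.log (Real.log X) ^ 3 + 1 := Nat.ceil_lt_add_one (by positivity)
        linarith
      · intro hpS
        have h4 := (hS.1 p hpS).2.1
        omega
    · have h5 : Real.log (Real.log X) ^ 3 ≤ (z2 X : ℝ) := Nat.le_ceil _
      have h6 := card_pf_le m' hm'1
      have h7 : Real.log m' ≤ 2 * Real.log (Real.log X) := by
        have h8 := Real.log_le_log (by linarith) hmX
        rw [Real.log_pow] at h8
        push_cast at h8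
        exact h8
      have h9 : 8 * Real.log (Real.log X) ≤ Real.log (Real.log X) ^ 3 := by
        have h10 : Real.log (Real.log X) ^ 3 = Real.log (Real.log X) ^ 2 * Real.log (Real.log X) := by ring
        rw [h10]
        nlinarith
      linarith
    · unfold z2
      rw [Nat.one_le_ceil_iff]
      positivity
  -- the sieving limit
  obtain ⟨N, hN⟩ : ∃ N : ℕ, N = ⌊X ^ (1 / (2 * E) : ℝ)⌋₊ := ⟨_, rfl⟩
  have hNle : (N : ℝ) ≤ X ^ (1 / (2 * E) : ℝ) := by rw [hN]; exact Nat.floor_le (by positivity)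
  have hNge : X ^ (1 / (2 * E) : ℝ) / 2 ≤ N := by
    have := Nat.lt_floor_add_one (X ^ (1 / (2 * E) : ℝ))
    rw [← hN] at this
    linarith
  have hN2 : 2 ≤ N := by
    have : (2 : ℝ) ≤ N := by linarith
    exact_mod_cast this
  obtain ⟨J, hJ1, hJ2⟩ := exists_J N hN2
  obtain ⟨z, hz⟩ : ∃ z : ℕ, z = 2 ^ 2 ^ J := ⟨_, rfl⟩
  have hz2 : 2 ≤ z := by
    rw [hz]
    calc 2 = 2 ^ 1 := (pow_one 2).symm
      _ ≤ 2 ^ 2 ^ J := Nat.pow_le_pow_right (by norm_num) (Nat.one_le_two_pow)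
  have hz0 : (0 : ℝ) < z := by exact_mod_cast (by omega : 0 < z)
  rw [← hz] at hJ1 hJ2
  have hzN : (z : ℝ) ≤ N := by exact_mod_cast hJ1
  have hlogz : T / (8 * E) ≤ Real.log z := by
    have h1 : Real.log N ≤ 2 * Real.log z := by
      have h2 : (N : ℝ) ≤ (z : ℝ) ^ 2 := by exact_mod_cast hJ2.le
      have h3 := Real.log_le_log (by exact_mod_cast (by omega : 0 < N)) h2
      rw [Real.log_pow] at h3
      push_cast at h3
      exact h3
    have h4 : T / (2 * E) - Real.log 2 ≤ Real.log N := by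
      have h5 := Real.log_le_log (by positivity) hNge
      rw [Real.log_div (by positivity) (by norm_num), Real.log_rpow hX0, ← hT] at h5
      have h6 : 1 / (2 * (E : ℝ)) * T = T / (2 * E) := by ring
      linarith
    have h7 : T / (8 * E) = T / (2 * E) / 4 := by ring
    have h8 : 8 * Real.log 2 ≤ T / (2 * E) := by rw [hT]; exact g6
    have h9 : 0 < T / (2 * E) := by positivity
    rw [h7]
    linarith
  have hlz0 : 0 < Real.log z := lt_of_lt_of_le (by positivity) hlogz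
  have hzpow : (z : ℝ) ^ (C * b₀) ≤ X ^ (1 / 2 : ℝ) := by
    rw [← hE]
    calc (z : ℝ) ^ E ≤ (X ^ (1 / (2 * E) : ℝ)) ^ E := pow_le_pow_left₀ hz0.le (hzN.trans hNle) E
      _ = X ^ (1 / 2 : ℝ) := by
          rw [← Real.rpow_natCast, ← Real.rpow_mul hX0.le]
          congr 1
          field_simp
  -- the sieve
  obtain ⟨Om, hOm⟩ : ∃ Om : ℕ → Finset ℕ, Om = fun p : ℕ => ({0, ((-m) % (p : ℤ)).toNat} : Finset ℕ) := ⟨_, rfl⟩
  have hPS : ∀ p ∈ PS (W * m') z, p.Prime ∧ p ≤ z ∧ ¬ p ∣ W ∧ ¬ p ∣ m' := by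
    intro p hp
    unfold PS at hp
    rw [mem_filter, mem_Icc] at hp
    exact ⟨hp.2.1, hp.1.2, fun h => hp.2.2 (h.mul_right _), fun h => hp.2.2 (h.mul_left _)⟩
  have hS1 := H 2 b₀ (W * m') W (by rw [hb₀]) (Nat.mul_pos hWpos hm'1)
    (fun p hp hpC => (hsmall p hp (by omega)).mul_right _) hWpos ⌊X⌋₊ ⌊3 * X⌋₊ J b
    (Nat.floor_le_floor (by linarith)) (by
      rw [← hz]
      exact fun p hp => (hPS p hp).2.2.1) Om (by
      rw [← hz]
      intro p hp
      obtain ⟨h1, h2, h3, h4⟩ := hPS p hp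
      have hp0 : (0 : ℤ) < p := by exact_mod_cast h1.pos
      have h5 : 0 ≤ (-m) % (p : ℤ) := Int.emod_nonneg _ hp0.ne'
      have h6 : (-m) % (p : ℤ) < p := Int.emod_lt_of_pos _ hp0
      have h7 : (-m) % (p : ℤ) ≠ 0 := by
        intro h8
        apply h4
        rw [hm', ← Int.natCast_dvd]
        exact (Int.dvd_neg).1 (Int.dvd_of_emod_eq_zero h8)
      rw [hOm]
      constructor
      · rw [card_pair]
        omega
      · intro c hc
        simp only [mem_insert, mem_singleton] at hc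
        omega)
  rw [← hz] at hS1
  have hcount : (((Ioc ⌊X⌋₊ ⌊3 * X⌋₊).filter (fun n => n ≡ b [MOD W] ∧ n.Prime ∧
      ((n : ℤ) + m).natAbs.Prime)).card : ℝ) ≤ (((Ioc ⌊X⌋₊ ⌊3 * X⌋₊).filter (fun n => n % W = b % W ∧
        ∀ p ∈ PS (W * m') z, n % p ∉ Om p)).card : ℝ) := by
    apply Nat.cast_le.2
    apply card_le_card
    intro n hn
    rw [mem_filter, mem_Ioc] at hn ⊢
    refine ⟨hn.1, hn.2.1, fun p hp hc => ?_⟩
    obtain ⟨h1, h2, h3, h4⟩ := hPS p hp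
    have hXn : X < n := (Nat.floor_lt hX0.le).1 hn.1.1
    have hpz : (p : ℝ) ≤ X ^ (1 / (2 * E) : ℝ) := by
      have : (p : ℝ) ≤ z := by exact_mod_cast h2
      linarith
    have hpT : (p : ℝ) + m' + 2 ≤ X := by linarith
    have hpm : p + m' < n := by
      have : ((p + m' : ℕ) : ℝ) < n := by push_cast; linarith
      exact_mod_cast this
    rw [hOm] at hc
    simp only [mem_insert, mem_singleton] at hc
    rcases hc with hc | hc
    · have h5 : p ∣ n := Nat.dvd_of_mod_eq_zero hc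
      have h6 := (Nat.prime_dvd_prime_iff_eq h1 hn.2.2.1).1 h5
      omega
    · have hp0 : (0 : ℤ) < p := by exact_mod_cast h1.pos
      have h5 : 0 ≤ (-m) % (p : ℤ) := Int.emod_nonneg _ hp0.ne'
      have h6 : ((n % p : ℕ) : ℤ) = (-m) % (p : ℤ) := by
        rw [hc]
        exact Int.toNat_of_nonneg h5
      have h7 : (n : ℤ) ≡ -m [ZMOD p] := by
        unfold Int.ModEq
        rw [← h6, Int.natCast_mod]
      have h8 : (p : ℤ) ∣ (n : ℤ) + m := by
        have h9 := h7.symm.dvd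
        rwa [sub_neg_eq_add] at h9
      have h9 : p ∣ ((n : ℤ) + m).natAbs := Int.natCast_dvd.1 h8
      have h10 := (Nat.prime_dvd_prime_iff_eq h1 hn.2.2.2).1 h9
      omega
  refine hcount.trans ?_
  -- the main term
  obtain ⟨P, hP⟩ : ∃ P : ℝ, P = (((⌊3 * X⌋₊ : ℕ) : ℝ) - (⌊X⌋₊ : ℕ)) / W * PIj (W * m') z 2 := ⟨_, rfl⟩
  rw [← hP] at hS1
  have hPi := PIj_two_le (W * m') z (by
    intro p hp
    obtain ⟨h1, h2, h3, h4⟩ := hPS p hp
    by_contra hcon
    exact h3 (hsmall p h1 (by omega)))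
  have hprb := prb (W * m') z (Nat.mul_pos hWpos hm'1) hz2
  have hφ' : (0 : ℝ) < (W * m').totient := by
    exact_mod_cast Nat.totient_pos.2 (Nat.mul_pos hWpos hm'1)
  have hPi1 : PIj (W * m') z 1 ≤ 4 * (W / W.totient) / Real.log z := by
    rw [le_div_iff₀ hlz0]
    have h1 : PIj (W * m') z 1 * Real.log z ≤ ((W * m' : ℕ) : ℝ) / (W * m').totient := by
      rw [le_div_iff₀ hφ']
      exact hprb
    refine h1.trans ?_
    rw [mul_div_assoc', div_le_div_iff₀ hφ' hφ]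
    push_cast
    nlinarith
  have hlen : ((⌊3 * X⌋₊ : ℕ) : ℝ) - (⌊X⌋₊ : ℕ) ≤ 3 * X := by
    have h1 : ((⌊3 * X⌋₊ : ℕ) : ℝ) ≤ 3 * X := Nat.floor_le (by linarith)
    have h2 : (0 : ℝ) ≤ (⌊X⌋₊ : ℕ) := Nat.cast_nonneg _
    linarith
  have hlen0 : 0 ≤ ((⌊3 * X⌋₊ : ℕ) : ℝ) - (⌊X⌋₊ : ℕ) := by
    have h1 : ⌊X⌋₊ ≤ ⌊3 * X⌋₊ := Nat.floor_le_floor (by linarith)
    have h2 : ((⌊X⌋₊ : ℕ) : ℝ) ≤ (⌊3 * X⌋₊ : ℕ) := by exact_mod_cast h1
    linarith
  have hP2 : P ≤ 48 * (X * W / (W.totient ^ 2 * Real.log z ^ 2)) := by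
    rw [hP]
    calc (((⌊3 * X⌋₊ : ℕ) : ℝ) - (⌊X⌋₊ : ℕ)) / W * PIj (W * m') z 2
        ≤ (3 * X) / W * (4 * (W / W.totient) / Real.log z) ^ 2 := by
          have h1 : PIj (W * m') z 2 ≤ (4 * (W / W.totient) / Real.log z) ^ 2 :=
            hPi.1.trans (pow_le_pow_left₀ hPi.2 hPi1 2)
          calc _ ≤ (((⌊3 * X⌋₊ : ℕ) : ℝ) - (⌊X⌋₊ : ℕ)) / W * (4 * (W / W.totient) / Real.log z) ^ 2 := by
                gcongr
            _ ≤ _ := by gcongr
      _ = 48 * (X * W / (W.totient ^ 2 * Real.log z ^ 2)) := by field_simp; ring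
  have hP3 : P ≤ 48 * (8 * E) ^ 2 * (X * W / (W.totient ^ 2 * T ^ 2)) := by
    refine hP2.trans ?_
    have h1 : (T / (8 * E)) ^ 2 ≤ Real.log z ^ 2 := pow_le_pow_left₀ (by positivity) hlogz 2
    calc 48 * (X * W / (W.totient ^ 2 * Real.log z ^ 2)) ≤
        48 * (X * W / (W.totient ^ 2 * (T / (8 * E)) ^ 2)) := by gcongr
      _ = _ := by field_simp
  have herr : X ^ (1 / 2 : ℝ) ≤ X * W / (W.totient ^ 2 * T ^ 2) := by
    rw [le_div_iff₀ (by positivity)]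
    have h1 := g8 W hWr hWle
    rw [← hT] at h1
    calc X ^ (1 / 2 : ℝ) * (W.totient ^ 2 * T ^ 2) ≤ X ^ (1 / 2 : ℝ) * (W ^ 2 * T ^ 2) := by gcongr
      _ = (W * T ^ 2 * X ^ (1 / 2 : ℝ)) * W := by ring
      _ ≤ X * W := by gcongr
  have h1 := (abs_le.1 hS1).2
  have hP0 : 0 ≤ P ∨ P < 0 := le_or_gt 0 P
  have h2 : (1 / 2 : ℝ) ^ b₀ * P ≤ |P| := by
    calc (1 / 2 : ℝ) ^ b₀ * P ≤ |(1 / 2 : ℝ) ^ b₀ * P| := le_abs_self _
      _ = (1 / 2 : ℝ) ^ b₀ * |P| := by rw [abs_mul, abs_of_nonneg (by positivity)]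
      _ ≤ 1 * |P| := by
          apply mul_le_mul_of_nonneg_right _ (abs_nonneg P)
          exact pow_le_one₀ (by norm_num) (by norm_num)
      _ = |P| := one_mul _
  have hPn : 0 ≤ P := by
    rw [hP]
    apply mul_nonneg (div_nonneg hlen0 hWr.le)
    unfold PIj
    apply prod_nonneg
    intro p hp
    obtain ⟨k1, k2, k3, k4⟩ := hPS p hp
    have k5 : 3 ≤ p := by
      by_contra hcon
      exact k3 (hsmall p k1 (by omega))
    have k6 : (3 : ℝ) ≤ p := by exact_mod_cast k5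
    rw [sub_nonneg, div_le_one (by linarith)]
    push_cast
    linarith
  rw [abs_of_nonneg hPn] at h2
  have h3 : 0 ≤ X * W / (W.totient ^ 2 * T ^ 2) := by positivity
  rw [← hT]
  have h4 : (96 * (8 * (E : ℝ)) ^ 2 + 1) * (X * W / (W.totient ^ 2 * T ^ 2)) =
      2 * (48 * (8 * (E : ℝ)) ^ 2 * (X * W / (W.totient ^ 2 * T ^ 2))) + X * W / (W.totient ^ 2 * T ^ 2) := by
    ring
  rw [h4]
  have h5 : ((2 : ℝ) ^ 2 ^ J) = z := by rw [hz]; push_cast; rfl
  have h6 : ((2 : ℝ) ^ 2 ^ J) ^ (C * b₀) ≤ X ^ (1 / 2 : ℝ) := by rw [h5]; exact hzpow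
  have h7 := (sub_le_iff_le_add.1 h1).trans
    (show (1 / 2 : ℝ) ^ b₀ * P + ((2 : ℝ) ^ 2 ^ J) ^ (C * b₀) + P ≤ 2 * P + X ^ (1 / 2 : ℝ) by linarith)
  have h8 : 2 * P ≤ 2 * (48 * (8 * (E : ℝ)) ^ 2 * (X * W / (W.totient ^ 2 * T ^ 2))) := by
    linarith
  refine le_trans (le_of_eq ?_) (h7.trans (by linarith))
  congr!

end Pool.Agent.Y866.TR
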