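import Pool.Agent.Y866.TR.Cov
import Pool.Agent.Y866.TR.Cls
import Pool.Agent.Y866.TR.Pair2
import Pool.Agent.Y866.PP.Prim2

/-!
# Progressions of primes which are alone in windows of Rankin's size
-/

set_option autoImplicit false
set_option maxHeartbeats 4000000

open Finset Filter

namespace Pool.Agent.Y866.TR

open Pool.Agent.H378R2
open Pool.Agent.Y866.PP (PROG prog_interval)

open Classical in
/-- the primes of the class at distance at least `h` from all other primes -/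
noncomputable def iso (X : ℝ) (W b : ℕ) (h : ℝ) : Finset ℕ :=
  (cls X W b).filter (fun n => ∀ m : ℕ, m.Prime → m ≠ n → h ≤ |(m : ℝ) - n|)

theorem ev_small : ∀ᶠ X : ℝ in atTop, 1000 ≤ Real.log X ∧ 1 ≤ X ∧ 1 ≤ Real.log (Real.log X) ∧
    Real.log X ^ 2 + Real.log X ≤ X := by
  have h := isLittleO_pow_exp_pos_mul_atTop (k := 2) (show (0 : ℝ) < 1 by norm_num)
  have h1 : ∀ᶠ L : ℝ in atTop, 2 * L ^ 2 ≤ Real.exp (1 * L) := by
    filter_upwards [h.def (show (0 : ℝ) < 1 / 2 by norm_num), eventually_ge_atTop 1] with L hL hL1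
    rw [Real.norm_of_nonneg (by positivity), Real.norm_of_nonneg (Real.exp_pos _).le] at hL
    linarith
  have hlog := Real.tendsto_log_atTop
  filter_upwards [hlog.eventually h1, hlog.eventually_ge_atTop 1000,
    (hlog.comp hlog).eventually_ge_atTop 1, eventually_ge_atTop 1] with X g1 g2 g3 g4
  refine ⟨g2, g4, g3, ?_⟩
  rw [one_mul, Real.exp_log (by linarith)] at g1
  nlinarith

theorem iso_count : ∃ c : ℝ, 0 < c ∧ ∀ᶠ X : ℝ in atTop, ∃ W b : ℕ, 0 < W ∧
    (W : ℝ) ≤ Real.exp (Real.log X / 700) ∧ b.Coprime W ∧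
    1 / 1000 * (X / (W.totient * Real.log X)) ≤ (iso X W b (c * RK X)).card := by
  classical
  obtain ⟨C₁, hC₁, Z, hZ2, hpair⟩ := pair_bound
  obtain ⟨C, hC, htot⟩ := tot_WW
  obtain ⟨c₂, hc₂, X0, hcov⟩ := covT (1 / (1000 * C₁ * C)) (by positivity)
  refine ⟨c₂ / 4, by positivity, ?_⟩
  filter_upwards [hpair, htot, class_count, bv_one Z, eventually_ge_atTop X0, ev_small] with X
    hp1 ht1 hcl hbv hX0 hsm
  obtain ⟨g1, g2, g3, g4⟩ := hsm
  obtain ⟨ps, S, hps, hS, hE⟩ := hbv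
  obtain ⟨k1, k2, hco⟩ := hcov X hX0
  obtain ⟨H, hH⟩ : ∃ H : ℝ, H = c₂ * RK X := ⟨_, rfl⟩
  rw [← hH] at k1 k2 hco
  have hXpos : 0 < X := by linarith
  obtain ⟨W, hW⟩ : ∃ W : ℕ, W = WW X S ps := ⟨_, rfl⟩
  have hWpos : 0 < W := by rw [hW]; exact WW_pos X S ps
  have hWle := WW_le X g2 S ps
  have hWr : (0 : ℝ) < W := by exact_mod_cast hWpos
  have hφ : (0 : ℝ) < W.totient := by exact_mod_cast Nat.totient_pos.2 hWpos
  have hWpr : ∀ p : ℕ, p.Prime → p ∣ W → p ≤ yy X := by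
    intro p hp h
    rw [hW] at h
    unfold WW at h
    obtain ⟨r, hr, hr2⟩ := (Prime.dvd_finsetProd_iff hp.prime _).1 h
    unfold PW at hr
    rw [mem_filter, mem_Icc] at hr
    rw [(Nat.prime_dvd_prime_iff_eq hp hr.2.1).1 hr2]
    exact hr.1.2
  have hyy1 : 1 ≤ yy X := by
    unfold yy
    apply Nat.le_floor
    push_cast
    rw [le_div_iff₀ (by norm_num)]
    linarith
  have hyyr : (1 : ℝ) ≤ yy X := by exact_mod_cast hyy1
  have hyyX : (yy X : ℝ) ≤ Real.log X / 1000 := Nat.floor_le (by positivity)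
  have hH8 : 8 ≤ H := by linarith
  -- the prime of the window
  obtain ⟨n₀, hn₀⟩ : ∃ n₀ : ℕ, n₀ = ⌊H / 4⌋₊ := ⟨_, rfl⟩
  have hn₀1 : yy X ≤ n₀ := by
    rw [hn₀]
    apply Nat.le_floor
    linarith
  obtain ⟨t, ht, htn, ht2⟩ := Nat.exists_prime_lt_and_le_two_mul n₀ (by omega)
  have htH : H / 4 < t := by
    have h1 := Nat.lt_floor_add_one (H / 4)
    rw [← hn₀] at h1
    have h2 : ((n₀ + 1 : ℕ) : ℝ) ≤ t := by exact_mod_cast htn
    push_cast at h2
    linarith
  have htH2 : (t : ℝ) ≤ H / 2 := by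
    have h1 : (n₀ : ℝ) ≤ H / 4 := by rw [hn₀]; exact Nat.floor_le (by linarith)
    have h2 : (t : ℝ) ≤ ((2 * n₀ : ℕ) : ℝ) := by exact_mod_cast ht2
    push_cast at h2
    linarith
  have hps2 : GoodP 2 ps := by
    rcases hps with h | h
    · exact Or.inl h
    · exact Or.inr ⟨h.1, by omega⟩
  obtain ⟨a0, ha0, hsurv⟩ := hco ps S hps2 hS t ht (by omega) (by linarith)
  rw [← hW] at ha0 hsurv
  obtain ⟨b, hb⟩ : ∃ b : ℕ, b = a0 + t := ⟨_, rfl⟩
  rw [← hb] at ha0
  refine ⟨W, b, hWpos, by rw [hW]; exact hWle, ha0, ?_⟩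
  have hcls := hcl W b hWpos (by rw [hW]; exact hWle) (by
    rw [hW]
    apply hE
    rw [← hW]
    exact ha0)
  obtain ⟨sv, hsv⟩ : ∃ sv : Finset ℕ, sv = (range (⌊H⌋₊ + 1)).filter
      (fun s => s ≠ t ∧ (a0 + s).Coprime W) := ⟨_, rfl⟩
  rw [← hsv] at hsurv
  -- the primes which are not alone
  obtain ⟨F, hF⟩ : ∃ F : ℕ → Finset ℕ, F = fun s : ℕ => (Ioc ⌊X⌋₊ ⌊3 * X⌋₊).filter (fun n =>
    n ≡ b [MOD W] ∧ n.Prime ∧ ((n : ℤ) + ((s : ℤ) - t)).natAbs.Prime) := ⟨_, rfl⟩
  have hFc : ∀ s ∈ sv, ((F s).card : ℝ) ≤ C₁ * (X * W / (W.totient ^ 2 * Real.log X ^ 2)) := by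
    intro s hs
    rw [hsv, mem_filter, mem_range] at hs
    have h1 : (s : ℝ) ≤ H := by
      have h2 : s ≤ ⌊H⌋₊ := by omega
      have h3 : (s : ℝ) ≤ (⌊H⌋₊ : ℕ) := by exact_mod_cast h2
      exact h3.trans (Nat.floor_le (by linarith))
    have h4 := hp1 ps S hps hS b ((s : ℤ) - t) (by
      intro h5
      apply hs.2.1
      omega) (by
      rw [Nat.cast_natAbs, Int.cast_abs]
      push_cast
      refine le_trans ?_ k2
      rw [abs_le]
      have h5 : (0 : ℝ) ≤ s := Nat.cast_nonneg s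
      have h6 : (0 : ℝ) ≤ t := Nat.cast_nonneg t
      constructor <;> linarith)
    rw [← hW] at h4
    rw [hF]
    exact h4
  obtain ⟨bad, hbad⟩ : ∃ bad : Finset ℕ, bad = (cls X W b).filter
      (fun n => ¬ ∀ m : ℕ, m.Prime → m ≠ n → c₂ / 4 * RK X ≤ |(m : ℝ) - n|) := ⟨_, rfl⟩
  have hH4 : c₂ / 4 * RK X = H / 4 := by rw [hH]; ring
  have hsub : bad ⊆ sv.biUnion F := by
    intro n hn
    rw [hbad, mem_filter] at hn
    obtain ⟨hn1, hn2⟩ := hn
    push Not at hn2
    obtain ⟨m, hm, hmn, hmd⟩ := hn2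
    rw [hH4] at hmd
    unfold cls at hn1
    rw [mem_filter, mem_Icc] at hn1
    obtain ⟨⟨hn3, hn4⟩, hn5, hn6, hn7⟩ := hn1
    have hXn : X < n := (Nat.floor_lt hXpos.le).1 hn7
    obtain ⟨h1, h2⟩ := abs_lt.1 hmd
    have hpos : (0 : ℝ) < (t : ℝ) + m - n := by linarith
    have hpos' : (0 : ℤ) < (t : ℤ) + m - n := by
      have : (0 : ℝ) < (((t : ℤ) + m - n : ℤ) : ℝ) := by push_cast; exact hpos
      exact_mod_cast this
    obtain ⟨s, hs⟩ := Int.eq_ofNat_of_zero_le hpos'.le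
    have hsr : (s : ℝ) = (t : ℝ) + m - n := by
      have : (((t : ℤ) + m - n : ℤ) : ℝ) = ((s : ℤ) : ℝ) := by rw [hs]
      push_cast at this
      linarith
    rw [mem_biUnion]
    refine ⟨s, ?_, ?_⟩
    · rw [hsv, mem_filter, mem_range]
      refine ⟨?_, ?_, ?_⟩
      · have h3 : s ≤ ⌊H⌋₊ := by
          apply Nat.le_floor
          rw [hsr]
          linarith
        omega
      · intro h3
        apply hmn
        rw [h3] at hs
        omega
      · -- the class of `m`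
        have h3 : (a0 + s : ℕ) ≡ m [MOD W] := by
          rw [Nat.modEq_iff_dvd]
          have h4 := (Nat.modEq_iff_dvd.1 hn5)
          rw [hb] at h4
          have h5 : ((m : ℕ) : ℤ) - ((a0 + s : ℕ) : ℤ) = -(((a0 + t : ℕ) : ℤ) - (n : ℤ)) := by
            push_cast
            omega
          rw [h5]
          exact (dvd_neg).2 h4
        have h4 : m.Coprime W := by
          rw [Nat.Prime.coprime_iff_not_dvd hm]
          intro h5
          have h6 := hWpr m hm h5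
          have h7 : (m : ℝ) ≤ yy X := by exact_mod_cast h6
          have h8 : H / 4 ≤ Real.log X ^ 2 := by
            have : 0 ≤ H := by linarith
            linarith
          linarith
        unfold Nat.Coprime at h4 ⊢
        rw [h3.gcd_eq]
        exact h4
    · rw [hF]
      simp only
      rw [mem_filter, mem_Ioc]
      refine ⟨⟨hn7, hn4⟩, hn5, hn6, ?_⟩
      have h3 : ((n : ℤ) + ((s : ℤ) - t)).natAbs = m := by omega
      rw [h3]
      exact hm
  have hbadc : (bad.card : ℝ) ≤ 1 / 1000 * (X / (W.totient * Real.log X)) := by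
    have hL0 : 0 < Real.log X := by linarith
    have hLL0 : 0 < Real.log (Real.log X) := by linarith
    have h1 : (bad.card : ℝ) ≤ ∑ s ∈ sv, ((F s).card : ℝ) := by
      have h2 := (card_le_card hsub).trans card_biUnion_le
      exact_mod_cast h2
    have ht2' := ht1 ps S
    rw [← hW] at ht2'
    calc (bad.card : ℝ) ≤ ∑ s ∈ sv, ((F s).card : ℝ) := h1
      _ ≤ ∑ s ∈ sv, C₁ * (X * W / (W.totient ^ 2 * Real.log X ^ 2)) := sum_le_sum hFc
      _ = sv.card * (C₁ * (X * W / (W.totient ^ 2 * Real.log X ^ 2))) := by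
          rw [sum_const, nsmul_eq_mul]
      _ ≤ (1 / (1000 * C₁ * C) * (Real.log X / Real.log (Real.log X))) *
          (C₁ * (X * W / (W.totient ^ 2 * Real.log X ^ 2))) := by gcongr
      _ = (1 / (1000 * C)) * ((W : ℝ) / W.totient) * (X / (W.totient * Real.log X)) /
            Real.log (Real.log X) := by
          field_simp
      _ ≤ (1 / (1000 * C)) * (C * Real.log (Real.log X)) * (X / (W.totient * Real.log X)) /
            Real.log (Real.log X) := by gcongr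
      _ = 1 / 1000 * (X / (W.totient * Real.log X)) := by
          field_simp
  have hsplit : (iso X W b (c₂ / 4 * RK X)).card + bad.card = (cls X W b).card := by
    rw [hbad]
    unfold iso
    exact card_filter_add_card_filter_not (s := cls X W b)
      (fun n => ∀ m : ℕ, m.Prime → m ≠ n → c₂ / 4 * RK X ≤ |(m : ℝ) - n|)
  have hsplit' : ((iso X W b (c₂ / 4 * RK X)).card : ℝ) + bad.card = (cls X W b).card := by
    exact_mod_cast hsplit
  linarith

theorem isolated (hG : PROG) : ∃ c : ℝ, 0 < c ∧ ∀ k r : ℕ, 0 < r → ∃ X₀ : ℝ, ∀ X : ℝ, X₀ ≤ X →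
    ∀ χ : ℕ → Fin r, ∃ p D : ℕ, 1 ≤ D ∧ (D : ℝ) ≤ X ^ (1 / 100 : ℝ) ∧ X < p ∧
      ((p + (k - 1) * D : ℕ) : ℝ) ≤ 3 * X ∧ ∀ j < k, (p + j * D).Prime ∧ χ (p + j * D) = χ p ∧
        ∀ m : ℕ, m.Prime → m ≠ p + j * D → c * RK X ≤ |(m : ℝ) - ((p + j * D : ℕ) : ℝ)| := by
  classical
  obtain ⟨c, hc, hiso⟩ := iso_count
  refine ⟨c, hc, fun k r hr => ?_⟩
  have hr0 : (0 : ℝ) < r := by exact_mod_cast hr
  obtain ⟨B, x₀, hprog⟩ := prog_interval hG (max k 1) (1 / 2) (1 / (6000 * r)) (by norm_num) (by positivity)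
  have hgrow : ∀ᶠ X : ℝ in atTop, (x₀ : ℝ) + 2 ≤ X ∧ 1000 ≤ Real.log X ∧
      Real.exp (Real.log X / 700) * (2 * Real.log X) ^ B ≤ X ^ (1 / 100 : ℝ) := by
    have h := isLittleO_pow_exp_pos_mul_atTop (k := B) (show (0 : ℝ) < 1 / 200 by norm_num)
    have h1 : ∀ᶠ L : ℝ in atTop, (2 * L) ^ B ≤ Real.exp (1 / 200 * L) := by
      filter_upwards [h.def (show (0 : ℝ) < 1 / 2 ^ B by positivity), eventually_ge_atTop 1] with L hL hL1
      rw [Real.norm_of_nonneg (by positivity), Real.norm_of_nonneg (Real.exp_pos _).le,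
        div_mul_eq_mul_div, one_mul, le_div_iff₀ (by positivity)] at hL
      rw [mul_pow]
      linarith
    filter_upwards [eventually_ge_atTop ((x₀ : ℝ) + 2), Real.tendsto_log_atTop.eventually h1,
      Real.tendsto_log_atTop.eventually_ge_atTop 1000] with X g1 g2 g3
    refine ⟨g1, g3, ?_⟩
    have hX0 : 0 < X := by
      have : (0 : ℝ) ≤ x₀ := Nat.cast_nonneg _
      linarith
    rw [Real.rpow_def_of_pos hX0]
    calc Real.exp (Real.log X / 700) * (2 * Real.log X) ^ B ≤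
        Real.exp (Real.log X / 700) * Real.exp (1 / 200 * Real.log X) := by gcongr
      _ = Real.exp (Real.log X / 700 + 1 / 200 * Real.log X) := by rw [Real.exp_add]
      _ ≤ _ := Real.exp_le_exp.2 (by linarith)
  obtain ⟨X₀, hX₀⟩ := eventually_atTop.1 (hiso.and hgrow)
  refine ⟨X₀, fun X hX χ => ?_⟩
  obtain ⟨⟨W, b, hW, hWle, hb, hcard⟩, g1, g2, g3⟩ := hX₀ X hX
  have hx₀ : (0 : ℝ) ≤ x₀ := Nat.cast_nonneg _
  have hX0 : 0 < X := by linarith
  have hX2 : 2 ≤ X := by linarith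
  have hL0 : 0 < Real.log X := by linarith
  have hφ : (0 : ℝ) < W.totient := by exact_mod_cast Nat.totient_pos.2 hW
  -- the colour
  have hpig : ∃ i : Fin r, 1 / (1000 * r) * (X / (W.totient * Real.log X)) ≤
      (((iso X W b (c * RK X)).filter (fun n => χ n = i)).card : ℝ) := by
    by_contra hcon
    push Not at hcon
    have h1 : (iso X W b (c * RK X)).card = ∑ i : Fin r,
        ((iso X W b (c * RK X)).filter (fun n => χ n = i)).card :=
      card_eq_sum_card_fiberwise (fun n _ => mem_univ _)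
    have h2 : ((iso X W b (c * RK X)).card : ℝ) < ∑ i : Fin r,
        1 / (1000 * (r : ℝ)) * (X / (W.totient * Real.log X)) := by
      rw [h1]
      push_cast
      have : Nonempty (Fin r) := ⟨⟨0, hr⟩⟩
      exact sum_lt_sum_of_nonempty univ_nonempty fun i _ => hcon i
    rw [sum_const, card_univ, Fintype.card_fin, nsmul_eq_mul] at h2
    have h3 : (r : ℝ) * (1 / (1000 * (r : ℝ)) * (X / (W.totient * Real.log X))) =
        1 / 1000 * (X / (W.totient * Real.log X)) := by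
      field_simp
    linarith
  obtain ⟨i, hi⟩ := hpig
  obtain ⟨P, hP⟩ : ∃ P : Finset ℕ, P = (iso X W b (c * RK X)).filter (fun n => χ n = i) := ⟨_, rfl⟩
  rw [← hP] at hi
  obtain ⟨u, hu⟩ : ∃ u : ℕ, u = ⌊X⌋₊ := ⟨_, rfl⟩
  obtain ⟨y, hy⟩ : ∃ y : ℕ, y = ⌊3 * X⌋₊ - ⌊X⌋₊ := ⟨_, rfl⟩
  have hfl : ⌊X⌋₊ ≤ ⌊3 * X⌋₊ := Nat.floor_le_floor (by linarith)
  have huy : u + y = ⌊3 * X⌋₊ := by omega
  have hu1 : (u : ℝ) ≤ X := by rw [hu]; exact Nat.floor_le hX0.le
  have hu2 : X - 1 ≤ u := by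
    have := Nat.lt_floor_add_one X
    rw [← hu] at this
    linarith
  have hw1 : ((u + y : ℕ) : ℝ) ≤ 3 * X := by rw [huy]; exact Nat.floor_le (by linarith)
  have hw2 : 3 * X - 1 ≤ ((u + y : ℕ) : ℝ) := by
    have := Nat.lt_floor_add_one (3 * X)
    rw [← huy] at this
    linarith
  have hwX : X ≤ ((u + y : ℕ) : ℝ) := by linarith
  have hyr : (y : ℝ) = ((u + y : ℕ) : ℝ) - u := by push_cast; ring
  have hy1 : X ≤ y := by linarith
  have hy2 : (y : ℝ) ≤ 3 * X := by
    have : (0 : ℝ) ≤ u := Nat.cast_nonneg _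
    linarith
  have hlogw : Real.log ((u + y : ℕ) : ℝ) ≤ 2 * Real.log X := by
    have h1 := Real.log_le_log (by linarith) hw1
    rw [Real.log_mul (by norm_num) hX0.ne'] at h1
    have h2 : Real.log 3 ≤ Real.log X := by
      have h3 : Real.log 3 ≤ 3 - 1 := Real.log_le_sub_one_of_pos (by norm_num)
      linarith
    linarith
  have hlogw2 : Real.log X ≤ Real.log ((u + y : ℕ) : ℝ) := Real.log_le_log hX0 hwX
  obtain ⟨p, d, hd1, hd2, hpd⟩ := hprog u y W (by
      have : (x₀ : ℝ) ≤ ((u + y : ℕ) : ℝ) := by linarith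
      exact_mod_cast this) hW (by
      -- the modulus is small
      have h1 : ((u + y : ℕ) : ℝ) ^ (1 / 2 : ℝ) ≤ 2 * X ^ (1 / 2 : ℝ) := by
        calc ((u + y : ℕ) : ℝ) ^ (1 / 2 : ℝ) ≤ (3 * X) ^ (1 / 2 : ℝ) := by gcongr
          _ = Real.sqrt (3 * X) := by rw [Real.sqrt_eq_rpow]
          _ = Real.sqrt 3 * Real.sqrt X := Real.sqrt_mul (by norm_num) _
          _ ≤ 2 * Real.sqrt X := by
              apply mul_le_mul_of_nonneg_right _ (Real.sqrt_nonneg _)
              rw [Real.sqrt_le_left (by norm_num)]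
              norm_num
          _ = 2 * X ^ (1 / 2 : ℝ) := by rw [Real.sqrt_eq_rpow]
      have h2 : (W : ℝ) ≤ X ^ (1 / 700 : ℝ) := by
        rw [Real.rpow_def_of_pos hX0]
        refine hWle.trans (le_of_eq ?_)
        congr 1
        ring
      have h3 : (2 : ℝ) ≤ X ^ (1 / 4 : ℝ) := by
        rw [Real.rpow_def_of_pos hX0]
        have := Real.add_one_le_exp (Real.log X * (1 / 4))
        linarith
      calc (W : ℝ) * ((u + y : ℕ) : ℝ) ^ (1 / 2 : ℝ) ≤ X ^ (1 / 700 : ℝ) * (2 * X ^ (1 / 2 : ℝ)) := by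
            gcongr
        _ ≤ X ^ (1 / 700 : ℝ) * (X ^ (1 / 4 : ℝ) * X ^ (1 / 2 : ℝ)) := by gcongr
        _ = X ^ (1 / 700 + (1 / 4 + 1 / 2) : ℝ) := by
            rw [Real.rpow_add hX0, Real.rpow_add hX0]
        _ ≤ X ^ (1 : ℝ) := Real.rpow_le_rpow_of_exponent_le (by linarith) (by norm_num)
        _ = X := Real.rpow_one X
        _ ≤ y := hy1) (b : ℤ) (by
      rw [Nat.isCoprime_iff_coprime]
      exact hb) P (by
      intro p hp
      rw [hP, mem_filter] at hp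
      have h1 := hp.1
      unfold iso cls at h1
      rw [mem_filter, mem_filter, mem_Icc] at h1
      obtain ⟨⟨⟨h2, h3⟩, h4, h5, h6⟩, h7⟩ := h1
      refine ⟨h5, by rw [hu]; exact h6, by rw [huy]; exact h3, ?_⟩
      rw [Int.natCast_modEq_iff]
      exact h4) (by
      refine le_trans ?_ hi
      calc 1 / (6000 * (r : ℝ)) * ((y : ℝ) / (W.totient * Real.log ((u + y : ℕ) : ℝ)))
          ≤ 1 / (6000 * (r : ℝ)) * ((3 * X) / (W.totient * Real.log X)) := by gcongr
        _ ≤ 1 / (1000 * (r : ℝ)) * (X / (W.totient * Real.log X)) := by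
            have h1 : 0 ≤ 1 / (2000 * (r : ℝ)) * (X / (W.totient * Real.log X)) := by positivity
            have h2 : 1 / (6000 * (r : ℝ)) * ((3 * X) / (W.totient * Real.log X)) =
              1 / (2000 * (r : ℝ)) * (X / (W.totient * Real.log X)) := by
                field_simp
                norm_num
            have h3 : 1 / (1000 * (r : ℝ)) * (X / (W.totient * Real.log X)) =
              2 * (1 / (2000 * (r : ℝ)) * (X / (W.totient * Real.log X))) := by
                field_simp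
                norm_num
            linarith)
  have hmem : ∀ j < max k 1, X < ((p + j * (W * d) : ℕ) : ℝ) ∧ ((p + j * (W * d) : ℕ) : ℝ) ≤ 3 * X ∧
      (p + j * (W * d)).Prime ∧ χ (p + j * (W * d)) = i ∧
      ∀ m : ℕ, m.Prime → m ≠ p + j * (W * d) → c * RK X ≤ |(m : ℝ) - ((p + j * (W * d) : ℕ) : ℝ)| := by
    intro j hj
    have h1 := hpd j hj
    rw [hP, mem_filter] at h1
    obtain ⟨h1, h8⟩ := h1
    unfold iso cls at h1
    rw [mem_filter, mem_filter, mem_Icc] at h1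
    obtain ⟨⟨⟨h2, h3⟩, h4, h5, h6⟩, h7⟩ := h1
    exact ⟨(Nat.floor_lt hX0.le).1 h6, (Nat.le_floor_iff (by linarith)).1 h3, h5, h8, h7⟩
  have h0 := hmem 0 (by omega)
  rw [zero_mul, add_zero] at h0
  refine ⟨p, W * d, Nat.mul_pos hW hd1, ?_, h0.1, ?_, fun j hj => ?_⟩
  · push_cast
    have h1 : (d : ℝ) ≤ (2 * Real.log X) ^ B := by
      refine hd2.trans ?_
      gcongr
    calc (W : ℝ) * d ≤ Real.exp (Real.log X / 700) * (2 * Real.log X) ^ B := by gcongr
      _ ≤ _ := g3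
  · exact (hmem (k - 1) (by omega)).2.1
  · obtain ⟨-, -, h5, h8, h7⟩ := hmem j (lt_of_lt_of_le hj (le_max_left _ _))
    exact ⟨h5, by rw [h8, h0.2.2.2.1], h7⟩

end Pool.Agent.Y866.TR
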