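import Pool.Agent.TH423.SH.FLIP
import Pool.Agent.TH423.SH.FLLP
import Pool.Agent.TH423.SH.PRDP
import Pool.Agent.H378R2.Final
import Pool.Agent.H318R2.Cr.Prod

/-!
# Pairs of primes in a class modulo the big modulus
-/

set_option autoImplicit false
set_option maxHeartbeats 4000000

open Finset Filter

namespace Pool.Agent.Y866.TR

open Pool.Agent.H378R2
open Pool.Agent.TH423.SH (PS PIj fli fll prb)

theorem exists_J (N : ℕ) (hN : 2 ≤ N) : ∃ J : ℕ, 2 ^ 2 ^ J ≤ N ∧ N < (2 ^ 2 ^ J) ^ 2 := by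
  refine ⟨Nat.log 2 (Nat.log 2 N), ?_, ?_⟩
  · have h1 : Nat.log 2 N ≠ 0 := (Nat.log_pos (by norm_num) hN).ne'
    have h2 := Nat.pow_log_le_self 2 h1
    calc 2 ^ 2 ^ Nat.log 2 (Nat.log 2 N) ≤ 2 ^ Nat.log 2 N := Nat.pow_le_pow_right (by norm_num) h2
      _ ≤ N := Nat.pow_log_le_self 2 (by omega)
  · have h3 := Nat.lt_pow_succ_log_self (b := 2) (by norm_num) (Nat.log 2 N)
    have h4 := Nat.lt_pow_succ_log_self (b := 2) (by norm_num) N
    calc N < 2 ^ (Nat.log 2 N + 1) := h4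
      _ ≤ 2 ^ (2 ^ (Nat.log 2 (Nat.log 2 N) + 1)) := Nat.pow_le_pow_right (by norm_num) h3
      _ = (2 ^ 2 ^ Nat.log 2 (Nat.log 2 N)) ^ 2 := by rw [← pow_mul, pow_succ 2 (Nat.log 2 (Nat.log 2 N))]

theorem tot_real (n : ℕ) : (n.totient : ℝ) = n * ∏ p ∈ n.primeFactors, (1 - (p : ℝ)⁻¹) := by
  have h := Nat.totient_eq_mul_prod_factors n
  have h2 := congrArg (fun x : ℚ => (x : ℝ)) h
  push_cast at h2
  exact h2

theorem one_sub_sum_le (D : Finset ℕ) (f : ℕ → ℝ) (hf : ∀ p ∈ D, 0 ≤ f p ∧ f p ≤ 1) :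
    1 - ∑ p ∈ D, f p ≤ ∏ p ∈ D, (1 - f p) ∧ ∏ p ∈ D, (1 - f p) ≤ 1 := by
  induction D using Finset.induction_on with
  | empty => simp
  | insert a s ha ih =>
    obtain ⟨h1, h2⟩ := ih fun p hp => hf p (mem_insert_of_mem hp)
    obtain ⟨h3, h4⟩ := hf a (mem_insert_self _ _)
    have h5 : 0 ≤ ∏ p ∈ s, (1 - f p) := prod_nonneg fun p hp => by
      have := (hf p (mem_insert_of_mem hp)).2
      linarith
    rw [sum_insert ha, prod_insert ha]
    constructor
    · nlinarith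
    · nlinarith

/-- the totient of `W m` -/
theorem tot_mul_ge {W m z ps : ℕ} (hW : 1 ≤ W) (hm : 1 ≤ m)
    (h : ∀ p : ℕ, p.Prime → p ∣ m → ¬ p ∣ W → z < p ∨ p = ps)
    (hcard : 2 * (m.primeFactors.card : ℝ) ≤ z) (hz : 1 ≤ z) :
    (W.totient : ℝ) * m ≤ 4 * ((W * m).totient : ℝ) := by
  classical
  have hpf : (W * m).primeFactors = W.primeFactors ∪ (m.primeFactors \ W.primeFactors) := by
    rw [Nat.primeFactors_mul (by omega) (by omega), union_sdiff_self_eq_union]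
  have hdisj : Disjoint W.primeFactors (m.primeFactors \ W.primeFactors) := disjoint_sdiff
  have e1 : ((W * m).totient : ℝ) = W.totient * m *
      ∏ p ∈ m.primeFactors \ W.primeFactors, (1 - (p : ℝ)⁻¹) := by
    rw [tot_real (W * m), hpf, prod_union hdisj, tot_real W]
    push_cast
    ring
  obtain ⟨D, hD⟩ : ∃ D : Finset ℕ, D = m.primeFactors \ W.primeFactors := ⟨_, rfl⟩
  rw [← hD] at e1
  have hDm : ∀ p ∈ D, p.Prime ∧ (z < p ∨ p = ps) := by
    intro p hp
    rw [hD, Finset.mem_sdiff, Nat.mem_primeFactors] at hp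
    refine ⟨hp.1.1, h p hp.1.1 hp.1.2.1 fun h1 => hp.2 ?_⟩
    exact Nat.mem_primeFactors.2 ⟨hp.1.1, h1, by omega⟩
  have hDc : D.card ≤ m.primeFactors.card := by
    rw [hD]; exact card_le_card sdiff_subset
  have hinv : ∀ p ∈ D, 0 ≤ (p : ℝ)⁻¹ ∧ (p : ℝ)⁻¹ ≤ 1 / 2 := by
    intro p hp
    have h1 : (2 : ℝ) ≤ p := by exact_mod_cast (hDm p hp).1.two_le
    refine ⟨by positivity, ?_⟩
    rw [inv_eq_one_div]
    exact one_div_le_one_div_of_le (by norm_num) h1
  have hz0 : (0 : ℝ) < z := by exact_mod_cast hz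
  have hprod : (1 : ℝ) / 4 ≤ ∏ p ∈ D, (1 - (p : ℝ)⁻¹) := by
    rw [← prod_filter_mul_prod_filter_not D (fun p => p = ps)]
    have h1 : (1 : ℝ) / 2 ≤ ∏ p ∈ D.filter (fun p => p = ps), (1 - (p : ℝ)⁻¹) := by
      have h2 : D.filter (fun p => p = ps) = if ps ∈ D then {ps} else ∅ := by
        rw [filter_eq']
      rw [h2]
      split_ifs with h3
      · rw [prod_singleton]
        have := (hinv ps h3).2
        linarith
      · rw [prod_empty]; norm_num
    have h4 : (1 : ℝ) / 2 ≤ ∏ p ∈ D.filter (fun p => ¬ p = ps), (1 - (p : ℝ)⁻¹) := by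
      have h5 := (one_sub_sum_le (D.filter (fun p => ¬ p = ps)) (fun p => (p : ℝ)⁻¹) (fun p hp => by
        have h6 := hinv p (mem_filter.1 hp).1
        exact ⟨h6.1, by linarith⟩)).1
      refine le_trans ?_ h5
      have h7 : ∑ p ∈ D.filter (fun p => ¬ p = ps), (p : ℝ)⁻¹ ≤ 1 / 2 := by
        calc ∑ p ∈ D.filter (fun p => ¬ p = ps), (p : ℝ)⁻¹ ≤
            ∑ p ∈ D.filter (fun p => ¬ p = ps), (z : ℝ)⁻¹ := by
              apply sum_le_sum
              intro p hp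
              rw [mem_filter] at hp
              have h8 : z < p := ((hDm p hp.1).2).resolve_right hp.2
              exact inv_anti₀ hz0 (by exact_mod_cast h8.le)
          _ = (D.filter (fun p => ¬ p = ps)).card * (z : ℝ)⁻¹ := by rw [sum_const, nsmul_eq_mul]
          _ ≤ m.primeFactors.card * (z : ℝ)⁻¹ := by
              apply mul_le_mul_of_nonneg_right _ (by positivity)
              exact_mod_cast (card_filter_le D (fun p => ¬ p = ps)).trans hDc
          _ ≤ 1 / 2 := by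
              rw [← div_eq_mul_inv, div_le_div_iff₀ hz0 (by norm_num)]
              linarith
      linarith
    calc (1 : ℝ) / 4 = 1 / 2 * (1 / 2) := by norm_num
      _ ≤ _ := mul_le_mul h1 h4 (by norm_num) (by linarith)
  rw [e1]
  have h9 : (0 : ℝ) ≤ W.totient * m := by positivity
  nlinarith

theorem card_pf_le (m : ℕ) (hm : 1 ≤ m) : (m.primeFactors.card : ℝ) ≤ 2 * Real.log m := by
  have h8 : 2 ^ m.primeFactors.card ≤ m := by
    calc 2 ^ m.primeFactors.card = ∏ p ∈ m.primeFactors, 2 := by rw [prod_const]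
      _ ≤ ∏ p ∈ m.primeFactors, p := prod_le_prod' fun p hp => (Nat.prime_of_mem_primeFactors hp).two_le
      _ ≤ m := Nat.le_of_dvd (by omega) (Nat.prod_primeFactors_dvd m)
  have q1 : (2 : ℝ) ^ m.primeFactors.card ≤ m := by exact_mod_cast h8
  have q2 := Real.log_le_log (by positivity) q1
  rw [Real.log_pow] at q2
  have q3 : (1 : ℝ) / 2 ≤ Real.log 2 := by linarith [Real.log_two_gt_d9]
  nlinarith [(Nat.cast_nonneg m.primeFactors.card : (0 : ℝ) ≤ (m.primeFactors.card : ℝ))]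

/-- the totient of the big modulus -/
theorem tot_WW : ∃ C : ℝ, 0 < C ∧ ∀ᶠ X : ℝ in atTop, ∀ (ps : ℕ) (S : Finset ℕ),
    (WW X S ps : ℝ) / (WW X S ps).totient ≤ C * Real.log (Real.log X) := by
  obtain ⟨c₁, c₂, hc₁, hc₂, h⟩ := Pool.Agent.H318R2.Cr.cz_bounds
  refine ⟨1 / c₁, by positivity, ?_⟩
  filter_upwards [Real.tendsto_log_atTop.eventually_ge_atTop 4000] with X hX ps S
  obtain ⟨W, hW⟩ : ∃ W : ℕ, W = WW X S ps := ⟨_, rfl⟩
  have hWpos : 0 < W := by rw [hW]; exact WW_pos X S ps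
  rw [← hW]
  have hWr : (0 : ℝ) < W := by exact_mod_cast hWpos
  have hφ : (0 : ℝ) < W.totient := by exact_mod_cast Nat.totient_pos.2 hWpos
  obtain ⟨y, hy⟩ : ∃ y : ℕ, y = yy X := ⟨_, rfl⟩
  have hy2 : 2 ≤ y := by
    rw [hy]
    unfold yy
    apply Nat.le_floor
    rw [le_div_iff₀ (by norm_num)]
    push_cast
    linarith
  have hyX : (y : ℝ) ≤ Real.log X / 1000 := by
    rw [hy]
    exact Nat.floor_le (by positivity)
  have hy0 : (0 : ℝ) < y := by exact_mod_cast (by omega : 0 < y)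
  have hsub : W.primeFactors ⊆ Pool.Agent.H318R2.Cr.Pz y := by
    intro p hp
    rw [Nat.mem_primeFactors] at hp
    rw [Pool.Agent.H318R2.Cr.mem_Pz]
    refine ⟨hp.1, ?_⟩
    have h1 := hp.2.1
    rw [hW] at h1
    unfold WW at h1
    obtain ⟨r, hr, hr2⟩ := (Prime.dvd_finsetProd_iff hp.1.prime _).1 h1
    unfold PW at hr
    rw [mem_filter, mem_Icc] at hr
    have h2 : p = r := (Nat.prime_dvd_prime_iff_eq hp.1 hr.2.1).1 hr2
    rw [h2, hy]
    exact hr.1.2
  have h1 : Pool.Agent.H318R2.Cr.V y ≤ ∏ p ∈ W.primeFactors, (1 - (p : ℝ)⁻¹) := by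
    unfold Pool.Agent.H318R2.Cr.V
    have e : ∀ p : ℕ, (1 - 1 / (p : ℝ)) = 1 - (p : ℝ)⁻¹ := fun p => by rw [one_div]
    simp only [e]
    rw [← prod_sdiff hsub]
    apply mul_le_of_le_one_left
    · apply prod_nonneg
      intro p hp
      have := Pool.Agent.H318R2.Cr.one_sub_inv_pos (Nat.prime_of_mem_primeFactors hp)
      rw [one_div] at this
      exact this.le
    · apply prod_le_one
      · intro p hp
        have := Pool.Agent.H318R2.Cr.one_sub_inv_pos
          (Pool.Agent.H318R2.Cr.mem_Pz.1 (mem_sdiff.1 hp).1).1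
        rw [one_div] at this
        exact this.le
      · intro p _
        have : (0 : ℝ) ≤ (p : ℝ)⁻¹ := by positivity
        linarith
  have h2 := (h y hy2).1
  have hly : 0 < Real.log y := Real.log_pos (by exact_mod_cast (by omega : 1 < y))
  have hly2 : Real.log y ≤ Real.log (Real.log X) := by
    apply Real.log_le_log hy0
    linarith
  have h3 : c₁ ≤ (∏ p ∈ W.primeFactors, (1 - (p : ℝ)⁻¹)) * Real.log (Real.log X) := by
    exact h2.trans (mul_le_mul h1 hly2 hly.le ((Pool.Agent.H318R2.Cr.V_pos y).le.trans h1))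
  have h4 := tot_real W
  rw [div_le_iff₀ hφ, h4, one_div, mul_assoc, ← mul_assoc (Real.log (Real.log X)),
    ← div_eq_inv_mul, le_div_iff₀ hc₁]
  calc (W : ℝ) * c₁ ≤ W * ((∏ p ∈ W.primeFactors, (1 - (p : ℝ)⁻¹)) * Real.log (Real.log X)) := by
        gcongr
    _ = _ := by ring

end Pool.Agent.Y866.TR
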